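import Pool.Agent.Helper79.DM.Defs

/-!
# Laurent series tangent to the identity at infinity over an ultrametric field
-/

set_option autoImplicit false

namespace Pool.Agent.Helper79.DM

open Polynomial

section

variable {L : Type*} [NormedField L] [IsUltrametricDist L] [CompleteSpace L]

omit [IsUltrametricDist L] [CompleteSpace L] in
/-- a geometrically bounded series is absolutely convergent -/
theorem geo_summable (c : ℕ → L) (M : ℝ) (hM : 0 ≤ M) (hc : ∀ k, ‖c k‖ ≤ M ^ k) (s : L)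
    (hs : M * ‖s‖ < 1) : Summable (fun k => ‖c k * s ^ k‖) := by
  have h0 : 0 ≤ M * ‖s‖ := mul_nonneg hM (norm_nonneg s)
  refine Summable.of_nonneg_of_le (fun k => norm_nonneg _) (fun k => ?_)
    (summable_geometric_of_lt_one h0 hs)
  rw [norm_mul, norm_pow, mul_pow]
  exact mul_le_mul_of_nonneg_right (hc k) (pow_nonneg (norm_nonneg s) k)

omit [IsUltrametricDist L] [CompleteSpace L] in
theorem inv_bound (M : ℝ) (hM : 1 ≤ M) (Z : L) (hZ : M < ‖Z‖) : M * ‖Z⁻¹‖ < 1 := by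
  rw [norm_inv, ← div_eq_mul_inv, div_lt_one (by linarith)]
  exact hZ

theorem psi_split (c : ℕ → L) (M : ℝ) (hM : 1 ≤ M) (h0 : c 0 = 1) (hc : ∀ k, ‖c k‖ ≤ M ^ k)
    (s : L) (hs : M * ‖s‖ < 1) :
    ∑' k, c k * s ^ k = 1 + ∑' k, c (k + 1) * s ^ (k + 1) := by
  have h := (geo_summable c M (by linarith) hc s hs).of_norm
  rw [h.tsum_eq_zero_add]
  simp [h0]

theorem tail_bound (c : ℕ → L) (M : ℝ) (hM : 1 ≤ M) (hc : ∀ k, ‖c k‖ ≤ M ^ k)
    (s : L) (hs : M * ‖s‖ < 1) :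
    ‖∑' k, c (k + 1) * s ^ (k + 1)‖ ≤ M * ‖s‖ := by
  have h0 : 0 ≤ M * ‖s‖ := mul_nonneg (by linarith) (norm_nonneg s)
  refine IsUltrametricDist.norm_tsum_le_of_forall_le_of_nonneg h0 fun k => ?_
  rw [norm_mul, norm_pow]
  calc ‖c (k + 1)‖ * ‖s‖ ^ (k + 1) ≤ M ^ (k + 1) * ‖s‖ ^ (k + 1) :=
        mul_le_mul_of_nonneg_right (hc _) (pow_nonneg (norm_nonneg s) _)
    _ = (M * ‖s‖) ^ (k + 1) := by rw [mul_pow]
    _ ≤ (M * ‖s‖) ^ 1 := pow_le_pow_of_le_one h0 hs.le (by omega)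
    _ = M * ‖s‖ := pow_one _

theorem psi_norm (c : ℕ → L) (M : ℝ) (hM : 1 ≤ M) (h0 : c 0 = 1) (hc : ∀ k, ‖c k‖ ≤ M ^ k)
    (Z : L) (hZ : M < ‖Z‖) : ‖Z * ∑' k, c k * Z⁻¹ ^ k‖ = ‖Z‖ := by
  have hs := inv_bound M hM Z hZ
  rw [psi_split c M hM h0 hc _ hs, norm_mul]
  have h1 := tail_bound c M hM hc _ hs
  have h2 : ‖(1 : L) + ∑' k, c (k + 1) * Z⁻¹ ^ (k + 1)‖ = 1 := by
    rw [IsUltrametricDist.norm_add_eq_max_of_norm_ne_norm, norm_one, max_eq_left]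
    · linarith
    · rw [norm_one]
      intro h
      linarith
  rw [h2, mul_one]

omit [CompleteSpace L] in
theorem pow_sub_bound (r s : L) (A : ℝ) (hr : ‖r‖ ≤ A) (hs : ‖s‖ ≤ A) (j : ℕ) :
    ‖r ^ (j + 1) - s ^ (j + 1)‖ ≤ ‖r - s‖ * A ^ j := by
  have hA : 0 ≤ A := le_trans (norm_nonneg r) hr
  induction j with
  | zero => simp
  | succ j ih =>
    have : r ^ (j + 1 + 1) - s ^ (j + 1 + 1) = r * (r ^ (j + 1) - s ^ (j + 1)) +
        (r - s) * s ^ (j + 1) := by ring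
    rw [this]
    refine (IsUltrametricDist.norm_add_le_max _ _).trans (max_le ?_ ?_)
    · rw [norm_mul]
      calc ‖r‖ * ‖r ^ (j + 1) - s ^ (j + 1)‖ ≤ A * (‖r - s‖ * A ^ j) :=
            mul_le_mul hr ih (norm_nonneg _) hA
        _ = ‖r - s‖ * A ^ (j + 1) := by ring
    · rw [norm_mul, norm_pow]
      exact mul_le_mul_of_nonneg_left (pow_le_pow_left₀ (norm_nonneg s) hs _) (norm_nonneg _)

/-- the difference of two values, up to the leading term -/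
theorem psi_diff (c : ℕ → L) (M : ℝ) (hM : 1 ≤ M) (h0 : c 0 = 1) (hc : ∀ k, ‖c k‖ ≤ M ^ k)
    (B : ℝ) (hB : M < B) (Z W : L) (hZ : B ≤ ‖Z‖) (hW : B ≤ ‖W‖) :
    ‖(Z * ∑' k, c k * Z⁻¹ ^ k - W * ∑' k, c k * W⁻¹ ^ k) - (Z - W)‖ ≤
      (M / B) * ‖Z - W‖ := by
  have hM0 : 0 ≤ M := by linarith
  have hB0 : 0 < B := by linarith
  have hZ0 : Z ≠ 0 := by
    rintro rfl
    rw [norm_zero] at hZ
    linarith
  have hW0 : W ≠ 0 := by
    rintro rfl
    rw [norm_zero] at hW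
    linarith
  have hsZ := inv_bound M hM Z (by linarith)
  have hsW := inv_bound M hM W (by linarith)
  have hZ1 := (geo_summable c M hM0 hc _ hsZ).of_norm
  have hW1 := (geo_summable c M hM0 hc _ hsW).of_norm
  have e1 : ∀ s : L, M * ‖s‖ < 1 → ∑' k, c k * s ^ k =
      1 + (c 1 * s + ∑' k, c (k + 2) * s ^ (k + 2)) := by
    intro s hs
    have h := (geo_summable c M hM0 hc s hs).of_norm
    rw [psi_split c M hM h0 hc s hs]
    have h' : Summable (fun k => c (k + 1) * s ^ (k + 1)) :=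
      (summable_nat_add_iff (f := fun k => c k * s ^ k) 1).2 h
    rw [h'.tsum_eq_zero_add]
    simp
  have s2 : ∀ s : L, M * ‖s‖ < 1 → Summable (fun k => c (k + 2) * s ^ (k + 2)) := by
    intro s hs
    exact (summable_nat_add_iff (f := fun k => c k * s ^ k) 2).2 (geo_summable c M hM0 hc s hs).of_norm
  have e2 : (Z * ∑' k, c k * Z⁻¹ ^ k - W * ∑' k, c k * W⁻¹ ^ k) - (Z - W) =
      ∑' k, (Z * (c (k + 2) * Z⁻¹ ^ (k + 2)) - W * (c (k + 2) * W⁻¹ ^ (k + 2))) := by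
    rw [Summable.tsum_sub ((s2 _ hsZ).mul_left Z) ((s2 _ hsW).mul_left W), tsum_mul_left,
      tsum_mul_left, e1 _ hsZ, e1 _ hsW]
    field_simp
    ring
  rw [e2]
  have hq0 : 0 ≤ M / B := div_nonneg hM0 hB0.le
  have hq1 : M / B < 1 := (div_lt_one hB0).2 hB
  have hiZ : ‖Z⁻¹‖ ≤ B⁻¹ := by
    rw [norm_inv]
    exact inv_anti₀ hB0 hZ
  have hiW : ‖W⁻¹‖ ≤ B⁻¹ := by
    rw [norm_inv]
    exact inv_anti₀ hB0 hW
  refine IsUltrametricDist.norm_tsum_le_of_forall_le_of_nonneg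
    (mul_nonneg hq0 (norm_nonneg _)) fun k => ?_
  have e3 : Z * (c (k + 2) * Z⁻¹ ^ (k + 2)) - W * (c (k + 2) * W⁻¹ ^ (k + 2)) =
      c (k + 2) * (Z⁻¹ ^ (k + 1) - W⁻¹ ^ (k + 1)) := by
    have h1 : Z * Z⁻¹ ^ (k + 2) = Z⁻¹ ^ (k + 1) := by
      rw [pow_succ' _ (k + 1), ← mul_assoc, mul_inv_cancel₀ hZ0, one_mul]
    have h2 : W * W⁻¹ ^ (k + 2) = W⁻¹ ^ (k + 1) := by
      rw [pow_succ' _ (k + 1), ← mul_assoc, mul_inv_cancel₀ hW0, one_mul]
    rw [mul_sub, ← h1, ← h2]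
    ring
  rw [e3, norm_mul]
  have e4 : ‖Z⁻¹ - W⁻¹‖ ≤ ‖Z - W‖ * (B⁻¹ * B⁻¹) := by
    have : Z⁻¹ - W⁻¹ = (W - Z) * (Z⁻¹ * W⁻¹) := by
      field_simp
    rw [this, norm_mul, norm_mul, ← norm_neg (W - Z), neg_sub]
    exact mul_le_mul_of_nonneg_left (mul_le_mul hiZ hiW (norm_nonneg _) (inv_nonneg.2 hB0.le))
      (norm_nonneg _)
  have hBi : 0 ≤ B⁻¹ := inv_nonneg.2 hB0.le
  calc ‖c (k + 2)‖ * ‖Z⁻¹ ^ (k + 1) - W⁻¹ ^ (k + 1)‖
      ≤ M ^ (k + 2) * (‖Z⁻¹ - W⁻¹‖ * (B⁻¹) ^ k) :=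
        mul_le_mul (hc _) (pow_sub_bound _ _ _ hiZ hiW k) (norm_nonneg _) (pow_nonneg hM0 _)
    _ ≤ M ^ (k + 2) * ((‖Z - W‖ * (B⁻¹ * B⁻¹)) * (B⁻¹) ^ k) :=
        mul_le_mul_of_nonneg_left (mul_le_mul_of_nonneg_right e4 (pow_nonneg hBi k))
          (pow_nonneg hM0 _)
    _ = (M / B) ^ (k + 2) * ‖Z - W‖ := by
        rw [div_eq_mul_inv, mul_pow]
        ring
    _ ≤ (M / B) ^ 1 * ‖Z - W‖ :=
        mul_le_mul_of_nonneg_right (pow_le_pow_of_le_one hq0 hq1.le (by omega)) (norm_nonneg _)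
    _ = (M / B) * ‖Z - W‖ := by rw [pow_one]

/-- properties of such a series -/
theorem psi_props (c : ℕ → L) (M : ℝ) (hM : 1 ≤ M) (h0 : c 0 = 1) (hc : ∀ k, ‖c k‖ ≤ M ^ k) :
    (∀ Z : L, M < ‖Z‖ → ‖Z * ∑' k, c k * Z⁻¹ ^ k‖ = ‖Z‖) ∧
    (∀ Z W : L, M < ‖Z‖ → M < ‖W‖ →
      ‖Z * ∑' k, c k * Z⁻¹ ^ k - W * ∑' k, c k * W⁻¹ ^ k‖ = ‖Z - W‖) ∧
    (∀ x : L, M < ‖x‖ → ∃ Z : L, M < ‖Z‖ ∧ Z * ∑' k, c k * Z⁻¹ ^ k = x) := by
  refine ⟨psi_norm c M hM h0 hc, ?_, ?_⟩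
  · intro Z W hZ hW
    rcases eq_or_ne Z W with rfl | hne
    · simp
    set B : ℝ := min ‖Z‖ ‖W‖ with hBdef
    have hB : M < B := lt_min hZ hW
    have h1 := psi_diff c M hM h0 hc B hB Z W (min_le_left _ _) (min_le_right _ _)
    have hB0 : 0 < B := by linarith
    have hq1 : M / B < 1 := (div_lt_one hB0).2 hB
    have hpos : 0 < ‖Z - W‖ := norm_pos_iff.2 (sub_ne_zero.2 hne)
    have h2 : M / B * ‖Z - W‖ < ‖Z - W‖ := by nlinarith
    set D := Z * ∑' k, c k * Z⁻¹ ^ k - W * ∑' k, c k * W⁻¹ ^ k with hD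
    have h3 : D = (D - (Z - W)) + (Z - W) := by ring
    rw [h3, IsUltrametricDist.norm_add_eq_max_of_norm_ne_norm, max_eq_right]
    · linarith
    · intro h
      linarith
  · intro x hx
    have hM0 : 0 < M := by linarith
    have hx0 : 0 < ‖x‖ := by linarith
    set ψ : L → L := fun Z => Z * ∑' k, c k * Z⁻¹ ^ k with hψ
    set T : L → L := fun Z => x + (Z - ψ Z) with hT
    set S : Set L := Metric.sphere 0 ‖x‖ with hS
    have hcomp : IsComplete S := Metric.isClosed_sphere.isComplete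
    have hmaps : Set.MapsTo T S S := by
      intro Z hZ
      rw [hS, mem_sphere_zero_iff_norm] at hZ ⊢
      have hZM : M < ‖Z‖ := by rw [hZ]; exact hx
      have hs := inv_bound M hM Z hZM
      have h1 : Z - ψ Z = - (Z * ∑' k, c (k + 1) * Z⁻¹ ^ (k + 1)) := by
        rw [hψ]
        simp only
        rw [psi_split c M hM h0 hc _ hs]
        ring
      have h2 : ‖Z - ψ Z‖ ≤ M := by
        rw [h1, norm_neg, norm_mul]
        calc ‖Z‖ * ‖∑' k, c (k + 1) * Z⁻¹ ^ (k + 1)‖ ≤ ‖Z‖ * (M * ‖Z⁻¹‖) :=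
              mul_le_mul_of_nonneg_left (tail_bound c M hM hc _ hs) (norm_nonneg _)
          _ = M := by
              rw [norm_inv, hZ]
              field_simp
      rw [hT]
      simp only
      rw [IsUltrametricDist.norm_add_eq_max_of_norm_ne_norm, max_eq_left]
      · linarith
      · intro h
        linarith
    have hq0 : 0 ≤ M / ‖x‖ := div_nonneg hM0.le hx0.le
    have hq1 : M / ‖x‖ < 1 := (div_lt_one hx0).2 hx
    have hcontr : ContractingWith ⟨M / ‖x‖, hq0⟩ (hmaps.restrict T S S) := by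
      refine ⟨?_, ?_⟩
      · rw [← NNReal.coe_lt_coe]
        exact hq1
      · refine LipschitzWith.of_dist_le_mul fun Z W => ?_
        have hZ : ‖(Z : L)‖ = ‖x‖ := mem_sphere_zero_iff_norm.1 Z.2
        have hW : ‖(W : L)‖ = ‖x‖ := mem_sphere_zero_iff_norm.1 W.2
        rw [Subtype.dist_eq, Subtype.dist_eq, dist_eq_norm, dist_eq_norm]
        have h1 := psi_diff c M hM h0 hc ‖x‖ hx (Z : L) (W : L) hZ.ge hW.ge
        have h2 : (Set.MapsTo.restrict T S S hmaps Z : L) - (Set.MapsTo.restrict T S S hmaps W : L) =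
            - ((ψ Z - ψ W) - ((Z : L) - (W : L))) := by
          simp only [Set.MapsTo.val_restrict_apply, hT]
          ring
        rw [h2, norm_neg]
        exact h1
    have hxS : x ∈ S := by
      rw [hS, mem_sphere_zero_iff_norm]
    obtain ⟨Z, hZS, hfix, -⟩ := hcontr.exists_fixedPoint' hcomp hmaps hxS (edist_ne_top _ _)
    rw [hS, mem_sphere_zero_iff_norm] at hZS
    refine ⟨Z, by rw [hZS]; exact hx, ?_⟩
    have h1 : T Z = Z := hfix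
    have h2 : x + (Z - ψ Z) = Z := h1
    have h3 : ψ Z = x := by linear_combination -h2
    exact h3

end

end Pool.Agent.Helper79.DM
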