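import Pool.Agent.Helper93.DM.Psi

/-!
# The inverse of the Boettcher coordinate at infinity in characteristic `p`
-/

set_option autoImplicit false

namespace Pool.Agent.Helper79.DM

open Polynomial

namespace Boe

/-! ### Values of power series -/

section

variable {L : Type*} [NormedField L]

/-- the power series `W` converges absolutely at `s` with value `v` -/
def HasEv (s : L) (W : PowerSeries L) (v : L) : Prop :=
  Summable (fun k => ‖PowerSeries.coeff k W * s ^ k‖) ∧ ∑' k, PowerSeries.coeff k W * s ^ k = v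

theorem HasEv.mul [CompleteSpace L] {s : L} {W₁ W₂ : PowerSeries L} {v₁ v₂ : L}
    (h₁ : HasEv s W₁ v₁) (h₂ : HasEv s W₂ v₂) : HasEv s (W₁ * W₂) (v₁ * v₂) := by
  have h4 : (fun m : ℕ => (W₁ * W₂).coeff m * s ^ m) =
      (fun n : ℕ => ∑ kl ∈ Finset.HasAntidiagonal.antidiagonal n,
        W₁.coeff kl.1 * s ^ kl.1 * (W₂.coeff kl.2 * s ^ kl.2)) := by
    funext m
    rw [PowerSeries.coeff_mul, Finset.sum_mul]
    refine Finset.sum_congr rfl fun p hp => ?_
    rw [← Finset.HasAntidiagonal.mem_antidiagonal.1 hp, pow_add]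
    ring
  constructor
  · have h1 := summable_norm_sum_mul_antidiagonal_of_summable_norm h₁.1 h₂.1
    have h5 : (fun m : ℕ => ‖(W₁ * W₂).coeff m * s ^ m‖) =
      (fun n : ℕ => ‖∑ kl ∈ Finset.HasAntidiagonal.antidiagonal n,
        W₁.coeff kl.1 * s ^ kl.1 * (W₂.coeff kl.2 * s ^ kl.2)‖) := by
      funext m
      rw [congrFun h4 m]
    rw [h5]
    exact h1
  · have h2 := tsum_mul_tsum_eq_tsum_sum_antidiagonal_of_summable_norm h₁.1 h₂.1
    rw [h₁.2, h₂.2] at h2
    rw [h4, h2]

theorem HasEv.add [CompleteSpace L] {s : L} {W₁ W₂ : PowerSeries L} {v₁ v₂ : L}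
    (h₁ : HasEv s W₁ v₁) (h₂ : HasEv s W₂ v₂) : HasEv s (W₁ + W₂) (v₁ + v₂) := by
  have h4 : (fun m : ℕ => (W₁ + W₂).coeff m * s ^ m) =
      (fun n : ℕ => W₁.coeff n * s ^ n + W₂.coeff n * s ^ n) := by
    funext m
    rw [map_add, add_mul]
  constructor
  · refine Summable.of_nonneg_of_le (fun k => norm_nonneg _) (fun k => ?_) (h₁.1.add h₂.1)
    rw [congrFun h4 k]
    exact norm_add_le _ _
  · rw [h4, Summable.tsum_add h₁.1.of_norm h₂.1.of_norm, h₁.2, h₂.2]

theorem HasEv.monomial (s : L) (a : L) (j : ℕ) :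
    HasEv s (PowerSeries.C a * PowerSeries.X ^ j) (a * s ^ j) := by
  have h4 : (fun m : ℕ => (PowerSeries.C a * PowerSeries.X ^ j : PowerSeries L).coeff m * s ^ m) =
      (fun n : ℕ => if n = j then a * s ^ j else 0) := by
    funext m
    rw [PowerSeries.coeff_C_mul, PowerSeries.coeff_X_pow]
    split_ifs with h
    · rw [h, mul_one]
    · rw [mul_zero, zero_mul]
  constructor
  · have h5 : (fun m : ℕ => ‖(PowerSeries.C a * PowerSeries.X ^ j : PowerSeries L).coeff m * s ^ m‖)
        = (fun n : ℕ => if n = j then ‖a * s ^ j‖ else 0) := by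
      funext m
      rw [congrFun h4 m]
      split_ifs
      · rfl
      · exact norm_zero
    rw [h5]
    exact (hasSum_ite_eq j _).summable
  · rw [h4, tsum_ite_eq]

theorem HasEv.one (s : L) : HasEv s (1 : PowerSeries L) 1 := by
  have := HasEv.monomial s (1 : L) 0
  simpa using this

theorem HasEv.zero (s : L) : HasEv s (0 : PowerSeries L) 0 := by
  have := HasEv.monomial s (0 : L) 0
  simpa using this

theorem HasEv.pow [CompleteSpace L] {s : L} {W : PowerSeries L} {v : L}
    (h : HasEv s W v) (n : ℕ) : HasEv s (W ^ n) (v ^ n) := by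
  induction n with
  | zero => simpa using HasEv.one s
  | succ n ih =>
    rw [pow_succ, pow_succ]
    exact ih.mul h

theorem HasEv.sum [CompleteSpace L] {s : L} {ι : Type*} (t : Finset ι) (W : ι → PowerSeries L)
    (v : ι → L) (h : ∀ i ∈ t, HasEv s (W i) (v i)) : HasEv s (∑ i ∈ t, W i) (∑ i ∈ t, v i) := by
  classical
  induction t using Finset.induction_on with
  | empty => simpa using HasEv.zero s
  | insert a t ha ih =>
    rw [Finset.sum_insert ha, Finset.sum_insert ha]
    exact (h a (Finset.mem_insert_self a t)).add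
      (ih fun i hi => h i (Finset.mem_insert_of_mem hi))

end

/-! ### Bounded power series -/

section

variable {L : Type*} [NormedField L] [IsUltrametricDist L]

/-- coefficients bounded by `R ^ n` -/
def Bd (R : ℝ) (W : PowerSeries L) : Prop := ∀ n, ‖PowerSeries.coeff n W‖ ≤ R ^ n

theorem Bd.add {R : ℝ} {W₁ W₂ : PowerSeries L} (h₁ : Bd R W₁) (h₂ : Bd R W₂) :
    Bd R (W₁ + W₂) := by
  intro n
  rw [map_add]
  exact (IsUltrametricDist.norm_add_le_max _ _).trans (max_le (h₁ n) (h₂ n))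

theorem Bd.mul {R : ℝ} (hR : 0 ≤ R) {W₁ W₂ : PowerSeries L} (h₁ : Bd R W₁) (h₂ : Bd R W₂) :
    Bd R (W₁ * W₂) := by
  intro n
  rw [PowerSeries.coeff_mul]
  refine IsUltrametricDist.norm_sum_le_of_forall_le_of_nonneg (pow_nonneg hR n) fun p hp => ?_
  rw [← Finset.HasAntidiagonal.mem_antidiagonal.1 hp, pow_add, norm_mul]
  exact mul_le_mul (h₁ _) (h₂ _) (norm_nonneg _) (pow_nonneg hR _)

omit [IsUltrametricDist L] in
theorem Bd.monomial {R : ℝ} (hR : 0 ≤ R) (a : L) (j : ℕ) (ha : ‖a‖ ≤ R ^ j) :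
    Bd R (PowerSeries.C a * PowerSeries.X ^ j) := by
  intro n
  rw [PowerSeries.coeff_C_mul, PowerSeries.coeff_X_pow]
  split_ifs with h
  · rw [mul_one, h]
    exact ha
  · rw [mul_zero, norm_zero]
    exact pow_nonneg hR n

theorem Bd.one {R : ℝ} (hR : 0 ≤ R) : Bd R (1 : PowerSeries L) := by
  have := Bd.monomial hR (1 : L) 0 (by simp)
  simpa using this

omit [IsUltrametricDist L] in
theorem Bd.zero {R : ℝ} (hR : 0 ≤ R) : Bd R (0 : PowerSeries L) := by
  intro n
  rw [map_zero, norm_zero]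
  exact pow_nonneg hR n

theorem Bd.pow {R : ℝ} (hR : 0 ≤ R) {W : PowerSeries L} (h : Bd R W) (n : ℕ) : Bd R (W ^ n) := by
  induction n with
  | zero => simpa using Bd.one hR
  | succ n ih =>
    rw [pow_succ]
    exact ih.mul hR h

theorem Bd.sum {R : ℝ} (hR : 0 ≤ R) {ι : Type*} (t : Finset ι) (W : ι → PowerSeries L)
    (h : ∀ i ∈ t, Bd R (W i)) : Bd R (∑ i ∈ t, W i) := by
  classical
  induction t using Finset.induction_on with
  | empty => simpa using Bd.zero hR
  | insert a t ha ih =>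
    rw [Finset.sum_insert ha]
    exact (h a (Finset.mem_insert_self a t)).add
      (ih fun i hi => h i (Finset.mem_insert_of_mem hi))

end

/-! ### The functional equation -/

section

variable {L : Type*} [Field L]

/-- the left hand side `∑ a_i t^(m-i) W^i` -/
noncomputable def FF (f₁ : L[X]) (W : PowerSeries L) : PowerSeries L :=
  ∑ i ∈ Finset.range (f₁.natDegree + 1),
    PowerSeries.C (f₁.coeff i) * PowerSeries.X ^ (f₁.natDegree - i) * W ^ i

theorem FF_coeff (f₁ : L[X]) (hm : f₁.Monic) (n : ℕ) (W W' D : PowerSeries L)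
    (h : W - W' = PowerSeries.X ^ n * D) (h1 : PowerSeries.constantCoeff W = 1)
    (h2 : PowerSeries.constantCoeff W' = 1) :
    PowerSeries.coeff n (FF f₁ W) = PowerSeries.coeff n (FF f₁ W') +
      f₁.natDegree * PowerSeries.constantCoeff D := by
  have e1 : FF f₁ W - FF f₁ W' = (D * ∑ i ∈ Finset.range (f₁.natDegree + 1),
      PowerSeries.C (f₁.coeff i) * PowerSeries.X ^ (f₁.natDegree - i) *
        (∑ j ∈ Finset.range i, W ^ j * W' ^ (i - 1 - j))) * PowerSeries.X ^ n := by
    rw [FF, FF, ← Finset.sum_sub_distrib, Finset.mul_sum, Finset.sum_mul]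
    refine Finset.sum_congr rfl fun i _ => ?_
    have := Commute.geom_sum₂_mul (Commute.all W W') i
    rw [← mul_sub, ← this, h]
    ring
  have e2 : PowerSeries.coeff n (FF f₁ W) - PowerSeries.coeff n (FF f₁ W') =
      PowerSeries.constantCoeff (D * ∑ i ∈ Finset.range (f₁.natDegree + 1),
      PowerSeries.C (f₁.coeff i) * PowerSeries.X ^ (f₁.natDegree - i) *
        (∑ j ∈ Finset.range i, W ^ j * W' ^ (i - 1 - j))) := by
    rw [← map_sub, e1, PowerSeries.coeff_mul_X_pow', if_pos le_rfl, Nat.sub_self,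
      PowerSeries.coeff_zero_eq_constantCoeff_apply]
  have e3 : PowerSeries.constantCoeff (∑ i ∈ Finset.range (f₁.natDegree + 1),
      PowerSeries.C (f₁.coeff i) * PowerSeries.X ^ (f₁.natDegree - i) *
        (∑ j ∈ Finset.range i, W ^ j * W' ^ (i - 1 - j)) : PowerSeries L) = f₁.natDegree := by
    rw [Finset.sum_range_succ, map_add, map_sum, Finset.sum_eq_zero, zero_add]
    · rw [Nat.sub_self, pow_zero, mul_one, map_mul, PowerSeries.constantCoeff_C,
        ← Polynomial.leadingCoeff, hm.leadingCoeff, one_mul, map_sum]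
      simp [h1, h2]
    · intro i hi
      have hi' : f₁.natDegree - i ≠ 0 := by
        have := Finset.mem_range.1 hi
        omega
      rw [map_mul, map_mul, map_pow, PowerSeries.constantCoeff_X, zero_pow hi', mul_zero, zero_mul]
  rw [map_mul, e3] at e2
  linear_combination e2

theorem FF_coeff_zero (f₁ : L[X]) (hm : f₁.Monic) (W : PowerSeries L)
    (h1 : PowerSeries.constantCoeff W = 1) : PowerSeries.coeff 0 (FF f₁ W) = 1 := by
  rw [PowerSeries.coeff_zero_eq_constantCoeff_apply, FF, Finset.sum_range_succ, map_add, map_sum,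
    Finset.sum_eq_zero, zero_add]
  · rw [Nat.sub_self, pow_zero, mul_one, map_mul, PowerSeries.constantCoeff_C,
        ← Polynomial.leadingCoeff, hm.leadingCoeff, one_mul, map_pow, h1, one_pow]
  · intro i hi
    have hi' : f₁.natDegree - i ≠ 0 := by
      have := Finset.mem_range.1 hi
      omega
    rw [map_mul, map_mul, map_pow, PowerSeries.constantCoeff_X, zero_pow hi', mul_zero, zero_mul]

end

/-! ### The recursion -/

/-- course-of-values recursion -/
noncomputable def cov {L : Type*} [Zero L] (step : ℕ → (ℕ → L) → L) (n : ℕ) : L :=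
  step n (fun k => if _ : k < n then cov step k else 0)
termination_by n

theorem cov_eq {L : Type*} [Zero L] (step : ℕ → (ℕ → L) → L) (n : ℕ) :
    cov step n = step n (fun k => if k < n then cov step k else 0) := by
  rw [cov]
  simp only [dite_eq_ite]

section

variable {L : Type*} [Field L] [IsAlgClosed L]

/-- truncated sequence -/
noncomputable def tru (c : ℕ → L) (n : ℕ) : ℕ → L := fun k => if k < n then c k else 0

/-- the required value of the `q`-th power of the coefficient -/
noncomputable def val (q : ℕ) (f₁ : L[X]) (n : ℕ) (c : ℕ → L) : L :=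
  (f₁.natDegree : L)⁻¹ * ((if f₁.natDegree ∣ n then c (n / f₁.natDegree) else 0) -
    PowerSeries.coeff n (FF f₁ (PowerSeries.mk fun k => c k ^ q)))

theorem exists_seq (q : ℕ) (hq : 0 < q) (f₁ : L[X]) :
    ∃ c : ℕ → L, c 0 = 1 ∧ ∀ n, 0 < n → c n ^ q = val q f₁ n (tru c n) := by
  have hroot : ∀ x : L, ∃ z : L, z ^ q = x := fun x => IsAlgClosed.exists_pow_nat_eq x hq
  choose ρ hρ using hroot
  refine ⟨cov (fun n c => if n = 0 then 1 else ρ (val q f₁ n c)), ?_, ?_⟩
  · rw [cov_eq]
    simp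
  · intro n hn
    rw [cov_eq]
    rw [if_neg (by omega), hρ]
    rfl

omit [IsAlgClosed L] in
theorem seq_eq (q : ℕ) (hq : 0 < q) (f₁ : L[X]) (hm : f₁.Monic) (hd : 2 ≤ f₁.natDegree)
    (hpd : (f₁.natDegree : L) ≠ 0) (c : ℕ → L) (h0 : c 0 = 1)
    (hc : ∀ n, 0 < n → c n ^ q = val q f₁ n (tru c n)) :
    FF f₁ (PowerSeries.mk fun k => c k ^ q) =
      PowerSeries.mk fun n => if f₁.natDegree ∣ n then c (n / f₁.natDegree) else 0 := by
  ext n
  rw [PowerSeries.coeff_mk]
  have hW : PowerSeries.constantCoeff (PowerSeries.mk fun k => c k ^ q) = 1 := by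
    rw [← PowerSeries.coeff_zero_eq_constantCoeff_apply, PowerSeries.coeff_mk, h0, one_pow]
  rcases Nat.eq_zero_or_pos n with rfl | hn
  · rw [FF_coeff_zero f₁ hm _ hW]
    simp [h0]
  · have hW' : PowerSeries.constantCoeff (PowerSeries.mk fun k => tru c n k ^ q) = 1 := by
      rw [← PowerSeries.coeff_zero_eq_constantCoeff_apply, PowerSeries.coeff_mk, tru, if_pos hn, h0,
        one_pow]
    have hD : (PowerSeries.mk fun k => c k ^ q) - (PowerSeries.mk fun k => tru c n k ^ q) =
        PowerSeries.X ^ n * (PowerSeries.mk fun k => c (k + n) ^ q) := by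
      ext k
      rw [map_sub, PowerSeries.coeff_mk, PowerSeries.coeff_mk, PowerSeries.coeff_X_pow_mul']
      by_cases hk : n ≤ k
      · rw [if_pos hk, PowerSeries.coeff_mk, Nat.sub_add_cancel hk, tru, if_neg (by omega),
          zero_pow (by omega), sub_zero]
      · rw [if_neg hk, tru, if_pos (by omega), sub_self]
    have h1 := FF_coeff f₁ hm n _ _ _ hD hW hW'
    have h2 : PowerSeries.constantCoeff (PowerSeries.mk fun k => c (k + n) ^ q) = c n ^ q := by
      rw [← PowerSeries.coeff_zero_eq_constantCoeff_apply, PowerSeries.coeff_mk, zero_add]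
    rw [h1, h2, hc n hn, val, ← mul_assoc, mul_inv_cancel₀ hpd, one_mul]
    have h3 : n / f₁.natDegree < n := Nat.div_lt_self hn (by omega)
    rw [tru, if_pos h3]
    ring

end

/-! ### Bounds -/

section

variable {p : ℕ} [Fact p.Prime] {L : Type*} [NormedField L] [IsUltrametricDist L] [CharP L p]

theorem norm_inv_natCast (m : ℕ) (hpm : ¬ p ∣ m) : ‖(m : L)⁻¹‖ ≤ 1 := by
  have hp : p.Prime := Fact.out
  have hcop : Nat.Coprime m p := (Nat.Prime.coprime_iff_not_dvd hp).2 hpm |>.symm
  have hu : (m : ZMod p) ≠ 0 := by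
    intro h
    exact hpm ((ZMod.natCast_eq_zero_iff m p).1 h)
  obtain ⟨m', hm'⟩ : ∃ m' : ℕ, (m' : ZMod p) = (m : ZMod p)⁻¹ := ⟨((m : ZMod p)⁻¹).val, by simp⟩
  have h1 : ((m * m' : ℕ) : ZMod p) = ((1 : ℕ) : ZMod p) := by
    push_cast
    rw [hm', mul_inv_cancel₀ hu]
  have h2 : ((m * m' : ℕ) : L) = ((1 : ℕ) : L) :=
    (CharP.natCast_eq_natCast L p).2 ((ZMod.natCast_eq_natCast_iff _ _ _).1 h1)
  have h3 : (m : L)⁻¹ = (m' : L) := by
    push_cast at h2
    exact inv_eq_of_mul_eq_one_right h2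
  rw [h3]
  exact IsUltrametricDist.norm_natCast_le_one L m'

theorem seq_bound [IsAlgClosed L] (q : ℕ) (hq : 0 < q) (f₁ : L[X]) (hm : f₁.Monic)
    (hd : 2 ≤ f₁.natDegree) (hpd : ¬ p ∣ f₁.natDegree) (c : ℕ → L) (h0 : c 0 = 1)
    (hc : ∀ n, 0 < n → c n ^ q = val q f₁ n (tru c n)) (M : ℝ) (hM : 1 ≤ M)
    (ha : ∀ i, ‖f₁.coeff i‖ ≤ M) (n : ℕ) : ‖c n‖ ≤ M ^ n := by
  induction n using Nat.strong_induction_on with
  | _ n ih =>
    rcases Nat.eq_zero_or_pos n with rfl | hn
    · simp [h0]
    · set R : ℝ := M ^ q with hR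
      have hR1 : 1 ≤ R := one_le_pow₀ hM
      have hR0 : 0 ≤ R := by linarith
      have hMR : M ≤ R := le_self_pow₀ hM (by omega)
      have hW : Bd R (PowerSeries.mk fun k => tru c n k ^ q) := by
        intro k
        rw [PowerSeries.coeff_mk, tru]
        split_ifs with hk
        · rw [norm_pow, hR, ← pow_mul, mul_comm q k, pow_mul]
          exact pow_le_pow_left₀ (norm_nonneg _) (ih k hk) q
        · rw [zero_pow (by omega), norm_zero]
          exact pow_nonneg hR0 k
      have hF : Bd R (FF f₁ (PowerSeries.mk fun k => tru c n k ^ q)) := by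
        rw [FF]
        refine Bd.sum hR0 _ _ fun i hi => ?_
        refine Bd.mul hR0 (Bd.monomial hR0 _ _ ?_) (hW.pow hR0 i)
        rcases Nat.lt_or_ge i f₁.natDegree with hi' | hi'
        · calc ‖f₁.coeff i‖ ≤ M := ha i
            _ ≤ R := hMR
            _ ≤ R ^ (f₁.natDegree - i) := le_self_pow₀ hR1 (by omega)
        · have : i = f₁.natDegree := by
            have := Finset.mem_range.1 hi
            omega
          rw [this, Nat.sub_self, pow_zero, ← Polynomial.leadingCoeff, hm.leadingCoeff, norm_one]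
      have h1 : ‖c n ^ q‖ ≤ R ^ n := by
        rw [hc n hn, val, norm_mul]
        have h2 : ‖(if f₁.natDegree ∣ n then tru c n (n / f₁.natDegree) else 0) -
            PowerSeries.coeff n (FF f₁ (PowerSeries.mk fun k => tru c n k ^ q))‖ ≤ R ^ n := by
          rw [sub_eq_add_neg]
          refine (IsUltrametricDist.norm_add_le_max _ _).trans
            (max_le ?_ ((norm_neg _).trans_le (hF n)))
          split_ifs with hdv
          · have h3 : n / f₁.natDegree < n := Nat.div_lt_self hn (by omega)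
            rw [tru, if_pos h3]
            calc ‖c (n / f₁.natDegree)‖ ≤ M ^ (n / f₁.natDegree) := ih _ h3
              _ ≤ M ^ n := pow_le_pow_right₀ hM h3.le
              _ ≤ R ^ n := pow_le_pow_left₀ (by linarith) hMR n
          · rw [norm_zero]
            exact pow_nonneg hR0 n
        calc ‖(f₁.natDegree : L)⁻¹‖ * _ ≤ 1 * R ^ n :=
              mul_le_mul (norm_inv_natCast (p := p) _ hpd) h2 (norm_nonneg _) zero_le_one
          _ = R ^ n := one_mul _
      rw [norm_pow, hR, ← pow_mul, mul_comm q n, pow_mul] at h1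
      exact le_of_pow_le_pow_left₀ (by omega) (pow_nonneg (by linarith) n) h1

end

end Boe

section

variable {p : ℕ} [Fact p.Prime] {L : Type*} [NormedField L] [IsUltrametricDist L]
  [CompleteSpace L] [CharP L p]

/-- existence of the inverse of the Boettcher coordinate: `ψ Z = Z * ∑ c_k Z^{-k}` (for
`e = 0` this is the case of degree prime to `p`) -/
theorem boettcher [IsAlgClosed L] (e : ℕ) (f f₁ : L[X]) (hf : f = Polynomial.expand L (p ^ e) f₁)
    (hm : f.Monic) (hd : 2 ≤ f₁.natDegree) (hpd : ¬ p ∣ f₁.natDegree) :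
    ∃ (c : ℕ → L) (M : ℝ), 1 ≤ M ∧ c 0 = 1 ∧ (∀ k, ‖c k‖ ≤ M ^ k) ∧
      ∀ Z : L, M < ‖Z‖ → f.eval (Z * ∑' k, c k * Z⁻¹ ^ k) =
        Z ^ f.natDegree * ∑' k, c k * (Z ^ f.natDegree)⁻¹ ^ k := by
  have hp : p.Prime := Fact.out
  have : ExpChar L p := ExpChar.prime hp
  set q : ℕ := p ^ e with hqdef
  have hq : 0 < q := pow_pos hp.pos e
  have hm₁ : f₁.Monic := by
    rw [hf] at hm
    have := Polynomial.leadingCoeff_expand (R := L) (f := f₁) hq
    rw [hm.leadingCoeff] at this
    exact this.symm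
  have hdeg : f.natDegree = f₁.natDegree * q := by
    rw [hf, Polynomial.natDegree_expand]
  have hpd' : (f₁.natDegree : L) ≠ 0 := by
    rw [Ne, CharP.cast_eq_zero_iff L p]
    exact hpd
  obtain ⟨c, h0, hc⟩ := Boe.exists_seq q hq f₁
  obtain ⟨M, hM, ha⟩ : ∃ M : ℝ, 1 ≤ M ∧ ∀ i, ‖f₁.coeff i‖ ≤ M := by
    refine ⟨1 + ∑ j ∈ f₁.support, ‖f₁.coeff j‖, ?_, ?_⟩
    · have : 0 ≤ ∑ j ∈ f₁.support, ‖f₁.coeff j‖ := Finset.sum_nonneg fun _ _ => norm_nonneg _
      linarith
    · intro i
      by_cases hi : i ∈ f₁.support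
      · have := Finset.single_le_sum (f := fun j => ‖f₁.coeff j‖) (fun _ _ => norm_nonneg _) hi
        linarith
      · rw [Polynomial.notMem_support_iff.1 hi, norm_zero]
        have : 0 ≤ ∑ j ∈ f₁.support, ‖f₁.coeff j‖ := Finset.sum_nonneg fun _ _ => norm_nonneg _
        linarith
  have hb := Boe.seq_bound (p := p) q hq f₁ hm₁ hd hpd c h0 hc M hM ha
  have heq := Boe.seq_eq q hq f₁ hm₁ hd hpd' c h0 hc
  refine ⟨c, M, hM, h0, hb, ?_⟩
  intro Z hZ
  have hM0 : 0 ≤ M := by linarith
  have hZ0 : Z ≠ 0 := by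
    rintro rfl
    rw [norm_zero] at hZ
    linarith
  have hs := inv_bound M hM Z hZ
  have hsum := geo_summable c M hM0 hb _ hs
  set V : L := ∑' k, c k * Z⁻¹ ^ k with hV
  set t : L := (Z⁻¹) ^ q with ht
  -- the value of `W` at `t`
  have hVq : V ^ q = ∑' k, c k ^ q * t ^ k := by
    have h1 : (iterateFrobenius L p e) V = ∑' k, (iterateFrobenius L p e) (c k * Z⁻¹ ^ k) := by
      rw [hV]
      refine Summable.map_tsum hsum.of_norm _ ?_
      have : (iterateFrobenius L p e : L → L) = fun x => x ^ (p ^ e) := by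
        funext x
        rw [iterateFrobenius_def]
      rw [this]
      exact continuous_pow _
    rw [iterateFrobenius_def] at h1
    rw [hqdef, h1]
    refine tsum_congr fun k => ?_
    rw [iterateFrobenius_def, mul_pow, ht, hqdef]
    ring
  have hev : Boe.HasEv t (PowerSeries.mk fun k => c k ^ q) (V ^ q) := by
    constructor
    · have h1 : ∀ k, ‖c k ^ q‖ ≤ (M ^ q) ^ k := by
        intro k
        rw [norm_pow, ← pow_mul, mul_comm q k, pow_mul]
        exact pow_le_pow_left₀ (norm_nonneg _) (hb k) q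
      have h2 : M ^ q * ‖t‖ < 1 := by
        rw [ht, norm_pow, ← mul_pow]
        exact pow_lt_one₀ (mul_nonneg hM0 (norm_nonneg _)) hs (by omega)
      have := geo_summable (fun k => c k ^ q) (M ^ q) (pow_nonneg hM0 q) h1 t h2
      simpa [PowerSeries.coeff_mk] using this
    · rw [hVq]
      refine tsum_congr fun k => ?_
      rw [PowerSeries.coeff_mk]
  have hF : Boe.HasEv t (Boe.FF f₁ (PowerSeries.mk fun k => c k ^ q))
      (∑ i ∈ Finset.range (f₁.natDegree + 1),
        f₁.coeff i * t ^ (f₁.natDegree - i) * (V ^ q) ^ i) := by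
    rw [Boe.FF]
    exact Boe.HasEv.sum _ _ _ fun i _ => (Boe.HasEv.monomial t _ _).mul (hev.pow i)
  have hRHS : ∑ i ∈ Finset.range (f₁.natDegree + 1),
        f₁.coeff i * t ^ (f₁.natDegree - i) * (V ^ q) ^ i =
      ∑' k, c k * (t ^ f₁.natDegree) ^ k := by
    rw [← hF.2, heq]
    have hinj : Function.Injective (fun k : ℕ => f₁.natDegree * k) := by
      intro a b hab
      exact Nat.eq_of_mul_eq_mul_left (by omega) hab
    have h1 := hinj.tsum_eq (f := fun n : ℕ => PowerSeries.coeff n (PowerSeries.mk fun n =>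
      if f₁.natDegree ∣ n then c (n / f₁.natDegree) else 0) * t ^ n) (by
        intro n hn
        rw [Function.mem_support, PowerSeries.coeff_mk] at hn
        by_cases hdv : f₁.natDegree ∣ n
        · obtain ⟨k, rfl⟩ := hdv
          exact ⟨k, rfl⟩
        · rw [if_neg hdv, zero_mul] at hn
          exact absurd rfl hn)
    rw [← h1]
    refine tsum_congr fun k => ?_
    rw [PowerSeries.coeff_mk, if_pos (Dvd.intro k rfl), Nat.mul_div_cancel_left _ (by omega),
      pow_mul]
  rw [hf, Polynomial.expand_eval, Polynomial.eval_eq_sum_range, ← hf, hdeg]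
  have h5 : (Z ^ (f₁.natDegree * q))⁻¹ = t ^ f₁.natDegree := by
    rw [ht, ← pow_mul, mul_comm q, inv_pow]
  rw [h5, ← hRHS, Finset.mul_sum]
  refine Finset.sum_congr rfl fun i hi => ?_
  have hi' : i ≤ f₁.natDegree := by
    have := Finset.mem_range.1 hi
    omega
  have h6 : Z ^ (f₁.natDegree * q) * t ^ (f₁.natDegree - i) = (Z ^ q) ^ i := by
    obtain ⟨j, hj⟩ := Nat.exists_eq_add_of_le hi'
    rw [ht, hj, Nat.add_sub_cancel_left, ← pow_mul Z⁻¹, inv_pow]
    rw [show (i + j) * q = q * i + q * j by ring, pow_add, pow_mul Z q i, mul_assoc,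
      mul_inv_cancel₀ (pow_ne_zero _ hZ0), mul_one]
  calc f₁.coeff i * ((Z * V) ^ q) ^ i
      = f₁.coeff i * ((Z ^ q) ^ i) * (V ^ q) ^ i := by rw [mul_pow, mul_pow, mul_assoc]
    _ = Z ^ (f₁.natDegree * q) * (f₁.coeff i * t ^ (f₁.natDegree - i) * (V ^ q) ^ i) := by
        rw [← h6]
        ring

end

end Pool.Agent.Helper79.DM
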